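import Pool.Agent.Helper20.IIC.Stmts

namespace IIC

open Filter Topology Set

theorem cont_wW_nonneg {d : ℕ} {β : ℝ} (hβ : 0 ≤ β) (Λ T : Finset (Ed d)) : 0 ≤ wW β Λ T := by
  unfold wW
  have h1 : 1 ≤ Real.exp (2 * β) := Real.one_le_exp (by linarith)
  have h2 : 0 ≤ Real.exp (2 * β) - 1 := by linarith
  positivity

theorem cont_den_pos {d : ℕ} {β : ℝ} (hβ : 0 ≤ β) (Λ : Finset (Ed d)) :
    0 < ∑ T ∈ Λ.powerset, wW β Λ T := by
  have h1 : 0 < wW β Λ ∅ := by
    unfold wW
    rw [Finset.card_empty, pow_zero, one_mul]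
    positivity
  exact h1.trans_le (Finset.single_le_sum (f := fun T => wW β Λ T)
    (fun T _ => cont_wW_nonneg hβ Λ T) (Finset.empty_mem_powerset Λ))

theorem cont_wW {d : ℕ} (Λ T : Finset (Ed d)) : Continuous (fun β => wW β Λ T) := by
  unfold wW
  fun_prop

theorem cont_ind {d : ℕ} (β : ℝ) (Λ T : Finset (Ed d)) (A : Set (Cfg d)) [Decidable (exw Λ T ∈ A)] :
    A.indicator (fun _ => wW β Λ T) (exw Λ T) = if exw Λ T ∈ A then wW β Λ T else 0 := by
  by_cases h : exw Λ T ∈ A
  · rw [Set.indicator_of_mem h, if_pos h]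
  · rw [Set.indicator_of_notMem h, if_neg h]

/-- CONT -/
theorem st_CONT : ST_CONT := by
  classical
  intro d Λ
  refine ⟨fun A => ?_, fun β hβ => ⟨?_, ?_, fun A B hAB => ?_, fun A B hAB => ?_,
    fun A B hAB => ?_⟩⟩
  · unfold PW
    refine ContinuousOn.div ?_ ?_ (fun β hβ => (cont_den_pos hβ Λ).ne')
    · refine (continuous_finsetSum _ (fun T _ => ?_)).continuousOn
      simp only [cont_ind]
      split_ifs
      · exact cont_wW Λ T
      · exact continuous_const
    · exact (continuous_finsetSum _ (fun T _ => cont_wW Λ T)).continuousOn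
  · unfold PW
    simp only [Set.indicator_univ]
    exact div_self (cont_den_pos hβ Λ).ne'
  · unfold PW
    simp only [Set.indicator_empty, Finset.sum_const_zero, zero_div]
  · unfold PW
    refine div_le_div_of_nonneg_right ?_ (cont_den_pos hβ Λ).le
    refine Finset.sum_le_sum (fun T _ => ?_)
    exact Set.indicator_le_indicator_of_subset hAB (fun _ => cont_wW_nonneg hβ Λ T) _
  · unfold PW
    rw [← add_div, ← Finset.sum_add_distrib]
    congr 1
    refine Finset.sum_congr rfl (fun T _ => ?_)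
    rw [Set.indicator_union_of_disjoint hAB]
  · unfold PW
    congr 1
    refine Finset.sum_congr rfl (fun T hT => ?_)
    have h := hAB T (Finset.mem_powerset.1 hT)
    rw [cont_ind, cont_ind]
    by_cases hA : exw Λ T ∈ A
    · rw [if_pos hA, if_pos (h.1 hA)]
    · rw [if_neg hA, if_neg (fun hB => hA (h.2 hB))]

end IIC
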