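import Pool.Agent.Helper20.IIC.Stmts

namespace IIC

open Filter Topology Set

theorem inv_le {d : ℕ} (g : lat d ≃g lat d) (e : Ed d) :
    le (g.mapEdgeSet e) = Sym2.map g (le e) := rfl

theorem inv_step {d : ℕ} (g : lat d ≃g lat d) (ω : Cfg d) (x y : Fin d → ℤ) :
    Step le (op (pb g ω)) x y ↔ Step le (op ω) (g x) (g y) := by
  constructor
  · rintro ⟨e, he, he2⟩
    refine ⟨g.mapEdgeSet e, he, ?_⟩
    rw [inv_le, he2]
    rfl
  · rintro ⟨e, he, he2⟩
    refine ⟨g.mapEdgeSet.symm e, ?_, ?_⟩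
    · change ω (g.mapEdgeSet (g.mapEdgeSet.symm e)) = true
      rw [Equiv.apply_symm_apply]
      exact he
    · have h : Sym2.map g (le (g.mapEdgeSet.symm e)) = Sym2.map g s(x, y) := by
        rw [← inv_le, Equiv.apply_symm_apply, he2]
        rfl
      exact Sym2.map.injective g.injective h

theorem inv_conn {d : ℕ} (g : lat d ≃g lat d) (ω : Cfg d) (x y : Fin d → ℤ) :
    LConn (pb g ω) x y ↔ LConn ω (g x) (g y) := by
  constructor
  · intro h
    exact Relation.ReflTransGen.lift g (fun a b hab => (inv_step g ω a b).1 hab) _ _ h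
  · intro h
    have h1 : ∀ a b, Step le (op ω) a b → Step le (op (pb g ω)) (g.symm a) (g.symm b) := by
      intro a b hab
      rw [inv_step]
      simpa using hab
    have h2 : LConn (pb g ω) (g.symm (g x)) (g.symm (g y)) :=
      Relation.ReflTransGen.lift g.symm h1 _ _ h
    simpa using h2

theorem inv_infin {d : ℕ} (g : lat d ≃g lat d) (ω : Cfg d) (x : Fin d → ℤ) :
    Infin (pb g ω) x ↔ Infin ω (g x) := by
  have h : g '' {y | LConn (pb g ω) x y} = {y | LConn ω (g x) y} := by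
    ext z
    constructor
    · rintro ⟨y, hy, rfl⟩
      exact (inv_conn g ω x y).1 hy
    · intro hz
      refine ⟨g.symm z, ?_, by simp⟩
      rw [Set.mem_ofPred_eq, inv_conn]
      simpa using hz
  unfold Infin
  rw [← h, Set.infinite_image_iff g.injective.injOn]

theorem inv_ncl {d : ℕ} (g : lat d ≃g lat d) (ω : Cfg d) :
    ncl le (op (pb g ω)) = ncl le (op ω) := by
  unfold ncl
  exact Nat.card_congr (Quot.congr g.toEquiv (fun a b => inv_step g ω a b))

theorem inv_exw {d : ℕ} (g : lat d ≃g lat d) (Λ T : Finset (Ed d)) :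
    pb g (exw Λ T) = exw (Λ.map g.symm.mapEdgeSet.toEmbedding)
      (T.map g.symm.mapEdgeSet.toEmbedding) := by
  have hm : ∀ (S : Finset (Ed d)) (e : Ed d), e ∈ S.map g.symm.mapEdgeSet.toEmbedding ↔
      g.mapEdgeSet e ∈ S := by
    intro S e
    rw [Finset.mem_map_equiv]
    have : g.symm.mapEdgeSet.symm e = g.mapEdgeSet e := rfl
    rw [this]
  funext e
  unfold pb exw ext
  by_cases h : g.mapEdgeSet e ∈ Λ
  · rw [if_pos h, if_pos ((hm Λ e).2 h)]
    by_cases h2 : g.mapEdgeSet e ∈ T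
    · rw [decide_eq_true h2, decide_eq_true ((hm T e).2 h2)]
    · rw [decide_eq_false h2, decide_eq_false (fun h' => h2 ((hm T e).1 h'))]
  · rw [if_neg h, if_neg (fun h' => h ((hm Λ e).1 h'))]

theorem inv_wW {d : ℕ} (g : lat d ≃g lat d) (β : ℝ) (Λ T : Finset (Ed d)) :
    wW β (Λ.map g.symm.mapEdgeSet.toEmbedding) (T.map g.symm.mapEdgeSet.toEmbedding) =
      wW β Λ T := by
  unfold wW
  rw [Finset.card_map, ← inv_exw, inv_ncl]

theorem inv_PW {d : ℕ} (g : lat d ≃g lat d) (β : ℝ) (Λ : Finset (Ed d)) (A : Set (Cfg d)) :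
    PW β Λ (pb g ⁻¹' A) = PW β (Λ.map g.symm.mapEdgeSet.toEmbedding) A := by
  have hs : ∀ f : Finset (Ed d) → ℝ,
      ∑ T ∈ Λ.powerset, f (T.map g.symm.mapEdgeSet.toEmbedding) =
      ∑ T ∈ (Λ.map g.symm.mapEdgeSet.toEmbedding).powerset, f T := by
    intro f
    refine Finset.sum_equiv (Equiv.finsetCongr g.symm.mapEdgeSet) (fun T => ?_) (fun T _ => rfl)
    rw [Finset.mem_powerset, Finset.mem_powerset, Equiv.finsetCongr_apply,
      Finset.map_subset_map]
  unfold PW
  rw [← hs, ← hs]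
  congr 1
  · refine Finset.sum_congr rfl (fun T _ => ?_)
    rw [inv_wW, ← inv_exw]
    rfl
  · refine Finset.sum_congr rfl (fun T _ => ?_)
    rw [inv_wW]

/-- INV -/
theorem st_INV : ST_INV := by
  intro d g
  refine ⟨inv_PW g, fun x y => ?_, fun x => ?_, fun β A => ?_⟩
  · ext ω
    exact inv_conn g ω x y
  · ext ω
    exact inv_infin g ω x
  · unfold mW
    refine Equiv.iInf_congr (Equiv.finsetCongr g.symm.mapEdgeSet) (fun Λ => ?_)
    rw [inv_PW]
    rfl

end IIC
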