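import Pool.Agent.Helper20.IIC.Stmts

namespace IIC

open Filter Topology Set

theorem ups_step {d : ℕ} {ω ω' : Cfg d} (h : ω ≤ ω') {x y : Fin d → ℤ}
    (hs : Step le (op ω) x y) : Step le (op ω') x y := by
  obtain ⟨e, he, he2⟩ := hs
  refine ⟨e, ?_, he2⟩
  change ω' e = true
  have h1 : ω e = true := he
  have h2 := h e
  rw [h1] at h2
  exact top_le_iff.1 h2

theorem ups_conn {d : ℕ} {ω ω' : Cfg d} (h : ω ≤ ω') {x y : Fin d → ℤ}
    (hs : LConn ω x y) : LConn ω' x y :=
  Relation.ReflTransGen.mono (fun _ _ hab => ups_step h hab) _ _ hs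

/-- UPS -/
theorem st_UPS : ST_UPS := by
  intro d x y K
  refine ⟨fun ω ω' h hω => ups_conn h hω, fun ω ω' h hω => ?_, fun ω ω' h hω e he => ?_⟩
  · exact Set.Infinite.mono (fun z hz => ups_conn h hz) hω
  · have h1 : ω e = true := hω e he
    have h2 := h e
    rw [h1] at h2
    exact top_le_iff.1 h2

end IIC
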